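import Pool.Agent.H54.WB.TargetsA

/-!
# Nested binary numbers: level `0`
-/

set_option autoImplicit false

namespace Pool.Agent.H36.WB

open Pool.Agent.H54.WB

/-- a number which is at least the tower gives a vertex of the core -/
theorem core_of_hi {V : Type} {E : V → V → Prop} {ro : V → ℕ} {bt : V → Bool} {ch : V → Prop}
    (l : ℕ) : ∀ x : V, Hi E ro bt ch l x → ∃ v, ro v = 0 := by
  induction l with
  | zero => exact fun x h => ⟨x, h.1⟩
  | succ l ih =>
    rintro x ⟨p, -, -, h⟩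
    exact ih p h

/-- **Level `0`.** -/
theorem pf_KE0 : T_KE0 := by
  intro V Q _ L U Hh Vv E ro bt mk ti rk hL hR hrk hbij
  obtain ⟨z, y, -, -, hH⟩ := hR.hi
  obtain ⟨v₀, hv₀⟩ := core_of_hi L y hH
  have hd : 0 < {v | ro v = 0}.ncard := by
    rw [Set.ncard_pos (Set.toFinite _)]
    exact ⟨v₀, hv₀⟩
  refine ⟨hd, ?_⟩
  refine ⟨fun x hx => hbij.mapsTo hx, fun x y hx hy => ?_, fun x y hx hy => hrk x y hx hy,
    fun x hx => ?_, fun k hk => absurd hk (Nat.succ_ne_zero k).symm,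
    fun k hk => absurd hk (Nat.succ_ne_zero k).symm, fun x hx h0 => hbij⟩
  · show x = y ↔ rk x = rk y
    exact ⟨fun h => congrArg rk h, fun h => hbij.injOn hx hy h⟩
  · show (ro x = 0 ∧ ∀ v, ¬ CLt E (fun v => ro v = 0) (fun v => ro v = L + 2) x v) ↔
      {v | ro v = 0}.ncard - 1 ≤ rk x
    constructor
    · rintro ⟨-, h⟩
      by_contra hlt
      have h1 : {v | ro v = 0}.ncard - 1 ∈ Set.Iio {v | ro v = 0}.ncard :=
        Set.mem_Iio.2 (Nat.sub_lt hd one_pos)
      obtain ⟨v, hv, hv'⟩ := hbij.surjOn h1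
      refine h v ((hrk x v hx hv).2 ?_)
      rw [hv']
      exact not_le.1 hlt
    · intro h
      refine ⟨hx, fun v hv => ?_⟩
      have h2 : rk x < rk v := (hrk x v hx hv.2.1).1 hv
      have h3 : rk v < {v | ro v = 0}.ncard := hbij.mapsTo hv.2.1
      omega

end Pool.Agent.H36.WB
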