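import Pool.Agent.H54.WB.TargetsB
import Pool.Agent.H8.MP.Per

/-!
# Explicit period and preperiod for derivable sizes
-/

set_option autoImplicit false

namespace Pool.Agent.H36.WB

open Pool.Agent.H54.WB Pool.Agent.H8.VR Pool.Agent.H8.MP

/-- one step up -/
theorem up_one {N Q : Type} [Finite N] (H : Gram N Q) (T : ℕ) (hT : Nat.card N ≤ T) (s : N) (n : ℕ)
    (hn : 2 ^ T < n) (h : Der H s n) : Der H s (n + (2 ^ T).factorial) := by
  classical
  have := Fintype.ofFinite N
  have hD' : ∀ l : List N, l.Nodup → 2 ^ l.length ≤ 2 ^ T := fun l hl =>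
    Nat.pow_le_pow_right (by norm_num) (hl.length_le_card.trans
      (by rwa [Nat.card_eq_fintype_card] at hT))
  rcases der_inv (2 ^ T) hD' h with ⟨d, hd1, hd2, hd3⟩ | ⟨l, h1, h2, h3, h4, h5⟩
  · obtain ⟨t, ht⟩ := Nat.dvd_factorial hd1 hd2
    rw [ht, Nat.mul_comm]
    exact hd3 t
  · have := hD' l h2
    omega

/-- many steps up -/
theorem up_many {N Q : Type} [Finite N] (H : Gram N Q) (T : ℕ) (hT : Nat.card N ≤ T) (s : N)
    (n : ℕ) (hn : 2 ^ T < n) (h : Der H s n) (t : ℕ) : Der H s (n + t * (2 ^ T).factorial) := by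
  induction t with
  | zero => simpa using h
  | succ t ih =>
    have := up_one H T hT s (n + t * (2 ^ T).factorial) (by omega) ih
    rw [Nat.succ_mul, ← Nat.add_assoc]
    exact this

/-- up along a congruence -/
theorem up_mod {N Q : Type} [Finite N] (H : Gram N Q) (T : ℕ) (hT : Nat.card N ≤ T) (s : N)
    (n m : ℕ) (hn : 2 ^ T < n) (hnm : n ≤ m) (hmod : n ≡ m [MOD (2 ^ T).factorial])
    (h : Der H s n) : Der H s m := by
  obtain ⟨t, ht⟩ := (Nat.modEq_iff_dvd' hnm).1 hmod
  have e : m = n + t * (2 ^ T).factorial := by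
    rw [Nat.mul_comm, ← ht]
    omega
  rw [e]
  exact up_many H T hT s n hn h t

/-- one direction -/
theorem per_one (hDWN : T_DWN) {N Q : Type} [Finite N] (H : Gram N Q) (T : ℕ)
    (hT : Nat.card N ≤ T) (s : N) (m : ℕ) (hm : cc T ≤ m) : ∀ n, cc T ≤ n →
    n ≡ m [MOD (2 ^ T).factorial] → Der H s n → Der H s m := by
  intro n
  induction n using Nat.strong_induction_on with
  | _ n ih =>
    intro hn hmod h
    unfold cc at hm hn
    have e1 : 0 < 2 ^ T := by positivity
    have e2 : 0 < 2 ^ (T * (2 ^ T).factorial) := by positivity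
    rcases le_or_gt n m with hnm | hnm
    · exact up_mod H T hT s n m (by omega) hnm hmod h
    · obtain ⟨x, hx1, hx2, hx3, hx4⟩ := hDWN N Q H T (2 ^ T).factorial hT (Nat.factorial_pos _) s n
        h (by omega)
      rcases le_or_gt x m with hxm | hxm
      · exact up_mod H T hT s x m (by omega) hxm (hx3.trans hmod) hx4
      · exact ih x hx1 (by unfold cc; omega) (hx3.trans hmod) hx4

theorem pf_PER (hDWN : T_DWN) : T_PER := by
  intro N Q _ H T hT s m n hm hn hmod
  exact ⟨per_one hDWN H T hT s n hn m hm hmod, per_one hDWN H T hT s m hm n hn hmod.symm⟩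

end Pool.Agent.H36.WB
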